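import Mathlib

set_option autoImplicit false

namespace Pool.Agent.Results.MP_52f683_gt.Seq

open Set Filter Topology Function

theorem result (S : Type) [TopologicalSpace S]
    (H : ∀ A B : Set S, Nonempty (A ≃ₜ B) → ∃ h : S ≃ₜ S, ⇑h '' A = B) :
    (∀ V : ℕ → Set S, (∀ n, IsOpen (V n)) → Pairwise (Disjoint on V) →
      (∀ n, Nonempty (V n ≃ₜ V (n + 1))) → V 0 = ∅) ∧
    (T2Space S → Infinite S →
      (∀ (u : ℕ → S) (x : S), Tendsto u atTop (𝓝 x) → ∀ᶠ n in atTop, u n = x) ∧
      (∀ x : S, ¬ IsOpen {x}) ∧ ¬ SequentialSpace S ∧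
      ¬ ∃ B : ℕ → Set S, (∀ n, IsOpen (B n) ∧ (B n).Nonempty) ∧
        ∀ U, IsOpen U → U.Nonempty → ∃ n, B n ⊆ U) := by
  classical
  have emb : ∀ {ι : Type} (W : ι → Set S) (g : ι → S ≃ₜ S), (∀ i, IsOpen (W i)) →
      Pairwise (Disjoint on fun i => g i '' W i) →
      IsEmbedding (fun z : Σ i, W i => g z.1 z.2.1) := fun W g h1 h2 =>
    (IsOpenEmbedding.of_continuous_injective_isOpenMap
      (continuous_sigma fun i => (g i).continuous.comp continuous_subtype_val) (by
        rintro ⟨i, a⟩ ⟨j, b⟩ e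
        obtain rfl : i = j := by_contra fun h => Set.disjoint_left.1 (h2 h)
          (mem_image_of_mem _ a.2) ((show g i a = g j b from e) ▸ mem_image_of_mem _ b.2)
        exact congrArg _ (Subtype.ext ((g i).injective e)))
      (isOpenMap_sigma.2 fun i => (g i).isOpenMap.comp (h1 i).isOpenMap_subtype_val)).isEmbedding
  have L : ∀ {ι : Type} (W : ι → Set S) (g : ι → S ≃ₜ S), (∀ i, IsOpen (W i)) →
      Pairwise (Disjoint on W) → Pairwise (Disjoint on fun i => g i '' W i) → Dense (⋃ i, W i) →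
      ∀ O, IsOpen O → O.Nonempty → ∃ i, (O ∩ g i '' W i).Nonempty := fun W g h1 h2 h3 h4 O h5 h6 => by
    obtain ⟨h, e⟩ := H _ _ ⟨(emb W (fun _ => Homeomorph.refl S) h1
      (by simpa using h2)).toHomeomorph.symm.trans (emb W g h1 h3).toHomeomorph⟩
    obtain ⟨z, h7, h8⟩ := h4.inter_open_nonempty _ (h5.preimage h.continuous)
      (h6.preimage h.surjective)
    obtain ⟨i, hi⟩ := mem_iUnion.1 h8
    obtain ⟨⟨j, b⟩, hb⟩ := e.le ⟨z, ⟨⟨i, z, hi⟩, rfl⟩, rfl⟩
    exact ⟨j, h z, h7, b, b.2, hb⟩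
  refine ⟨fun V h1 h2 h3 => by_contra fun hc => ?_, fun _ _ => ?_⟩
  · choose g hg using fun n => H _ _ (h3 n)
    have h4 : ∀ n, Disjoint (closure (⋃ n, V n))ᶜ (V n) := fun n =>
      disjoint_compl_left.mono_right ((subset_iUnion V n).trans subset_closure)
    obtain ⟨i, hi⟩ := L (fun i : Option ℕ => i.elim (closure (⋃ n, V n))ᶜ V)
      (fun i => i.elim (Homeomorph.refl S) g)
      (by rintro (_ | n); exacts [isClosed_closure.isOpen_compl, h1 n])
      (by
        rintro (_ | n) (_ | m) h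
        exacts [absurd rfl h, h4 m, (h4 n).symm, h2 fun e => h (congrArg _ e)])
      (by
        rintro (_ | n) (_ | m) h
        · exact absurd rfl h
        · simpa [onFun, hg] using h4 (m + 1)
        · simpa [onFun, hg] using (h4 (n + 1)).symm
        · simpa [onFun, hg] using h2 fun e : n + 1 = m + 1 => h (congrArg _ (Nat.succ_injective e)))
      (fun z => by
        by_cases h : z ∈ closure (⋃ n, V n)
        · exact closure_mono (iUnion_subset fun n => subset_iUnion
            (fun i : Option ℕ => i.elim (closure (⋃ n, V n))ᶜ V) (some n)) h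
        · exact subset_closure (mem_iUnion.2 ⟨none, h⟩))
      (V 0) (h1 0) (nonempty_iff_ne_empty.2 hc)
    rcases i with _ | n
    · exact not_disjoint_iff_nonempty_inter.2 hi (by simpa using (h4 0).symm)
    · exact not_disjoint_iff_nonempty_inter.2 hi
        (by simpa [onFun, hg] using h2 (Nat.succ_ne_zero n).symm)
  have hom : ∀ x y : S, ∃ h : S ≃ₜ S, h x = y := fun x y => by
    obtain ⟨h, e⟩ := H {x} {y} ⟨Homeomorph.homeomorphOfUnique _ _⟩
    exact ⟨h, by simpa using e⟩
  have dis : ∀ A B : Set S, A.Countable → B.Countable → A.Infinite → B.Infinite →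
      DiscreteTopology A → DiscreteTopology B → ∃ h : S ≃ₜ S, ⇑h '' A = B :=
    fun A B h1 h2 h3 h4 _ _ => by
      haveI := h1.to_subtype
      haveI := h2.to_subtype
      haveI := h3.to_subtype
      haveI := h4.to_subtype
      obtain ⟨e⟩ := nonempty_equiv_of_countable (α := A) (β := B)
      exact H A B ⟨e.toHomeomorphOfDiscrete⟩
  have fin : ∀ B : Set S, (∀ b ∈ B, ∃ N, IsOpen N ∧ b ∈ N ∧ (N ∩ B).Finite) →
      DiscreteTopology B := fun B h => discreteTopology_subtype_iff'.2 fun b hb => by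
    obtain ⟨N, h1, h2, h3⟩ := h b hb
    refine ⟨N \ ((N ∩ B) \ {b}), h1.sdiff h3.diff.isClosed,
      Set.eq_singleton_iff_unique_mem.2 ⟨⟨⟨h2, fun h => h.2 rfl⟩, hb⟩, fun c hc => ?_⟩⟩
    by_contra h4
    exact hc.1.2 ⟨⟨hc.1.1, hc.2⟩, h4⟩
  have loc : ∀ (u : ℕ → S) (x b : S), Tendsto u atTop (𝓝 x) → b ≠ x →
      ∃ N, IsOpen N ∧ b ∈ N ∧ (N ∩ range u).Finite := fun u x b hu hb => by
    obtain ⟨N, M, h1, h2, h3, h4, h5⟩ := t2_separation hb
    obtain ⟨k, hk⟩ := eventually_atTop.1 (hu.eventually (h2.mem_nhds h4))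
    refine ⟨N, h1, h3, ((finite_Iio k).image u).subset ?_⟩
    rintro _ ⟨h6, n, rfl⟩
    exact ⟨n, not_le.1 fun h => Set.disjoint_left.1 h5 h6 (hk n h), rfl⟩
  have key : ∀ (u : ℕ → S) (x : S), Tendsto u atTop (𝓝 x) → (∀ n, u n ≠ x) → False :=
    fun u x hu hx => by
      obtain ⟨y, hy⟩ := exists_ne x
      obtain ⟨h, rfl⟩ := hom x y
      have hv : Tendsto (h ∘ u) atTop (𝓝 (h x)) := (h.continuous.tendsto x).comp hu
      have h1 : x ∈ closure (range u) := mem_closure_of_tendsto hu (.of_forall mem_range_self)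
      have h2 : (range u).Infinite := fun h2 => by
        rw [h2.isClosed.closure_eq] at h1
        exact h1.elim hx
      obtain ⟨g, hg⟩ := dis (range u) ((range u ∪ range (h ∘ u)) \ {x, h x}) (countable_range _)
        (((countable_range _).union (countable_range _)).mono diff_subset) h2
        ((h2.mono subset_union_left).diff (toFinite _))
        (fin _ (by rintro _ ⟨n, rfl⟩; exact loc u x _ hu (hx n))) (fin _ fun b hb => by
          obtain ⟨N, h3, h4, h5⟩ := loc u x b hu fun e => hb.2 (Or.inl e)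
          obtain ⟨M, h6, h7, h8⟩ := loc _ _ b hv fun e => hb.2 (Or.inr e)
          exact ⟨N ∩ M, h3.inter h6, ⟨h4, h7⟩, (h5.union h8).subset fun c hc =>
            hc.2.1.imp (fun h => ⟨hc.1.1, h⟩) fun h => ⟨hc.1.2, h⟩⟩)
      have h3 : ∀ z ∈ closure ((range u ∪ range (h ∘ u)) \ {x, h x}), z ∈ ({x, h x} : Set S) →
          z = g x := fun z h3 h4 => by
        rw [← hg, ← g.image_closure] at h3
        obtain ⟨w, h5, rfl⟩ := h3
        rcases closure_minimal (subset_insert x _) hu.isCompact_insert_range.isClosed h5 with e | e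
        · rw [e]
        · exact absurd h4 (hg.le (mem_image_of_mem g e)).2
      refine hy ((h3 _ (mem_closure_of_tendsto hv ?_) (by simp)).trans
        (h3 _ (mem_closure_of_tendsto hu ?_) (by simp)).symm)
      · filter_upwards [hv.eventually_ne hy] with n hn
        exact ⟨Or.inr ⟨n, rfl⟩, fun e => e.elim hn fun e => hx n (h.injective e)⟩
      · filter_upwards [hu.eventually_ne hy.symm] with n hn
        exact ⟨Or.inl ⟨n, rfl⟩, fun e => e.elim (hx n) hn⟩
  have iso : ∀ x : S, ¬ IsOpen {x} := fun x hx => by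
    haveI : DiscreteTopology S := discreteTopology_iff_isOpen_singleton.2 fun y => by
      obtain ⟨h, rfl⟩ := hom x y
      simpa using h.isOpenMap _ hx
    obtain ⟨e⟩ : Nonempty ((univ : Set S) ≃ ({x}ᶜ : Set S)) := Cardinal.eq.1 (by
      rw [Cardinal.mk_univ, Cardinal.mk_compl_of_infinite]
      simpa using Cardinal.one_lt_aleph0.trans_le (Cardinal.aleph0_le_mk S))
    obtain ⟨h, hh⟩ := H _ _ ⟨e.toHomeomorphOfDiscrete⟩
    exact hh.le ⟨h.symm x, mem_univ _, h.apply_symm_apply x⟩ rfl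
  refine ⟨fun u x hu => by_contra fun hc => ?_, iso, fun hs => ?_, fun ⟨B, h1, h2⟩ => ?_⟩
  · obtain ⟨φ, h1, h2⟩ := extraction_of_frequently_atTop (not_eventually.1 hc)
    exact key (u ∘ φ) x (hu.comp h1.tendsto_atTop) h2
  · obtain ⟨x⟩ : Nonempty S := inferInstance
    refine iso x (isClosed_compl_iff.1 (IsSeqClosed.isClosed fun u y h1 h2 e => ?_))
    exact key u x ((show y = x from e) ▸ h2) h1
  · obtain ⟨V, h3, h4, h5⟩ := exists_seq_infinite_isOpen_pairwise_disjoint S
    have : ∀ (O : Set S) (n : ℕ), ∃ (W : Set S) (g : S ≃ₜ S), IsOpen W ∧ Disjoint O W ∧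
        g '' W ⊆ V (n + 1) ∧ (B n ∩ closure (O ∪ W)).Nonempty := fun O n => by
      by_cases h : B n ⊆ closure O
      · exact ⟨∅, .refl S, isOpen_empty, by simp, by simp, by
          simpa [inter_eq_left.2 h] using (h1 n).2⟩
      obtain ⟨x, h6, h7⟩ := not_subset.1 h
      obtain ⟨y, hy⟩ := (h3 (n + 1)).nonempty
      obtain ⟨g, rfl⟩ := hom x y
      exact ⟨(closure O)ᶜ ∩ g ⁻¹' V (n + 1), g,
        isClosed_closure.isOpen_compl.inter ((h4 _).preimage g.continuous),
        Set.disjoint_left.2 fun z h8 h9 => h9.1 (subset_closure h8),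
        by rintro _ ⟨z, hz, rfl⟩; exact hz.2, x, h6, subset_closure (Or.inr ⟨h7, hy⟩)⟩
    choose W g h6 h7 h8 h9 using this
    let O : ℕ → Set S := fun n => Nat.rec ∅ (fun n O => O ∪ W O n) n
    have h10 : ∀ n, O n = ⋃ m < n, W (O m) m := fun n => by
      induction n with
      | zero => simp [O]
      | succ n ih => rw [biUnion_lt_succ, ← ih]
    obtain ⟨n, z, h11, h12⟩ := L (fun n => W (O n) n) (fun n => g (O n) n) (fun n => h6 _ _)
      (pairwise_disjoint_on _ |>.2 fun m n h => (h7 (O n) n).mono_left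
        (h10 n ▸ subset_biUnion_of_mem (u := fun m => W (O m) m) h))
      (fun m n h => (h5 fun e : m + 1 = n + 1 => h (Nat.succ_injective e)).mono (h8 _ _) (h8 _ _))
      (dense_iff_inter_open.2 fun U hU hn => by
        obtain ⟨n, h11⟩ := h2 U hU hn
        obtain ⟨z, h12, h13⟩ := h9 (O n) n
        refine (mem_closure_iff.1 h13 U hU (h11 h12)).mono (inter_subset_inter_right _ ?_)
        exact (h10 (n + 1)).le.trans (iUnion₂_subset fun m _ =>
          subset_iUnion (fun m => W (O m) m) m))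
      (V 0) (h4 0) (h3 0).nonempty
    exact Set.disjoint_left.1 (h5 (Nat.succ_ne_zero n).symm) h11 (h8 _ _ h12)

end Pool.Agent.Results.MP_52f683_gt.Seq
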